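import Pool.Agent.Helper3.FewP.Goals3

/-!
# FewPoints (MP_d3128a_ag), block STRIP, goal CV1
-/

set_option autoImplicit false

namespace Pool.Agent.Helper28.FewP.CV1

open Pool.Agent.Helper3.FewP

theorem half (s : ℤ) : 2 * (s * (s - 1) / 2) = s * (s - 1) := by
  have h : (2 : ℤ) ∣ s * (s - 1) := by
    rcases Int.even_or_odd s with h | h
    · exact Dvd.dvd.mul_right h.two_dvd _
    · have h2 : Even (s - 1) := by
        obtain ⟨m, hm⟩ := h
        exact ⟨m, by omega⟩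
      exact Dvd.dvd.mul_left h2.two_dvd _
  exact Int.mul_ediv_cancel' h

/-- the difference of the values at `s0 + d` and `s0` -/
theorem ee_diff (k r : ℕ) (s0 d : ℤ) :
    2 * (ee k r (s0 + d) - ee k r s0) = d * (2 * (r + k * s0) + k * (d - 1)) := by
  unfold ee
  have h1 := half s0
  have h2 := half (s0 + d)
  have h3 : 2 * (((r : ℤ) * (s0 + d) + k * ((s0 + d) * (s0 + d - 1) / 2)) -
      (r * s0 + k * (s0 * (s0 - 1) / 2))) =
      2 * r * d + k * (2 * ((s0 + d) * (s0 + d - 1) / 2)) - k * (2 * (s0 * (s0 - 1) / 2)) := by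
    ring
  rw [h3, h1, h2]
  ring

/-- the sign of the bracket -/
theorem sign (k P : ℕ) (D d : ℤ) (hk : 1 ≤ k) (hP : 1 ≤ P) (hD : 0 ≤ D)
    (hD2 : D < 2 * (P : ℤ) ^ 2 * k) (hd : d ≠ 0) :
    0 < d * (2 * D + 2 * (P : ℤ) ^ 2 * k * (d - 1) + 1) := by
  have hPk : (1 : ℤ) ≤ (P : ℤ) ^ 2 * k := by
    have h1 : (1 : ℤ) ≤ (P : ℤ) ^ 2 := by
      have : (1 : ℤ) ≤ P := by exact_mod_cast hP
      nlinarith
    have h2 : (1 : ℤ) ≤ k := by exact_mod_cast hk
    nlinarith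
  rcases lt_or_gt_of_ne hd with h | h
  · have h1 : 2 * D + 2 * (P : ℤ) ^ 2 * k * (d - 1) + 1 < 0 := by
      have h2 : d - 1 ≤ -2 := by omega
      have h3 : (P : ℤ) ^ 2 * k * (d - 1) ≤ (P : ℤ) ^ 2 * k * (-2) :=
        mul_le_mul_of_nonneg_left h2 (by linarith)
      nlinarith
    exact mul_pos_of_neg_of_neg h h1
  · have h1 : 0 ≤ (P : ℤ) ^ 2 * k * (d - 1) := mul_nonneg (by linarith) (by omega)
    exact mul_pos h (by nlinarith)

theorem t : G_CV1 := by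
  intro k P r j s0 hk hP hD hD2 s hs
  obtain ⟨d, rfl⟩ : ∃ d, s = s0 + d := ⟨s - s0, by ring⟩
  have hd : d ≠ 0 := by
    rintro rfl
    exact hs (add_zero s0)
  have h1 := sign k P _ d hk hP hD hD2 hd
  have h2 := ee_diff k r s0 d
  have hk' : (0 : ℤ) < k := by exact_mod_cast hk
  have h3 := mul_pos hk' h1
  unfold DD at h3
  have h4 : 4 * (k : ℤ) * (P : ℤ) ^ 2 * ee k r (s0 + d) =
      4 * (k : ℤ) * (P : ℤ) ^ 2 * ee k r s0 +
        2 * (k : ℤ) * (P : ℤ) ^ 2 * (d * (2 * (r + k * s0) + k * (d - 1))) := by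
    rw [← h2]; ring
  rw [h4]
  nlinarith [h3]

end Pool.Agent.Helper28.FewP.CV1
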